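import Pool.Agent.helper17.SG.SpecB

/-!
# Project sg, module B10: bounded jumps
-/

set_option autoImplicit false

open MeasureTheory Set Metric Filter Topology
open scoped ENNReal NNReal ComplexConjugate

namespace Pool.Agent.SG

/-- `1 - |z|^2 ≤ 2 |u - z|` on the circle. -/
theorem B10_kk (u z : ℂ) (hu : ‖u‖ = 1) (hz : ‖z‖ < 1) : 1 - ‖z‖ ^ 2 ≤ 2 * ‖u - z‖ := by
  have h1 : 1 - ‖z‖ ≤ ‖u - z‖ := by
    have := norm_sub_norm_le u z
    rwa [hu] at this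
  nlinarith [norm_nonneg z]

theorem B10 (h3 : B03_stmt) : B10_stmt := by
  intro Γ _ A S₀
  obtain ⟨a1, -, -, a4, a5, -, -, -, a9, a10, -, a12⟩ := h3 Γ A
  obtain ⟨K, hK⟩ : ∃ K : ℝ, K = 1 + ∑ s ∈ S₀, 4 / A.kk s := ⟨_, rfl⟩
  have hpos : ∀ s, 0 ≤ 4 / A.kk s := fun s => div_nonneg (by norm_num) (a1 s).1.le
  have hK1 : 1 ≤ K := by
    rw [hK]
    have := Finset.sum_nonneg fun s (_ : s ∈ S₀) => hpos s
    linarith
  have hKs : ∀ s ∈ S₀, 4 / A.kk s ≤ K := by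
    intro s hs
    rw [hK]
    have := Finset.single_le_sum (fun s _ => hpos s) hs
    linarith
  have hKs' : ∀ s ∈ S₀, 4 ≤ K * A.kk s := by
    intro s hs
    have h1 := hKs s hs
    rwa [div_le_iff₀ (a1 s).1] at h1
  have hM : K ≤ (1 + 2 * K) * (1 + 2 * K ^ 2) := by nlinarith [sq_nonneg K]
  refine ⟨(1 + 2 * K) * (1 + 2 * K ^ 2), hK1.trans hM, fun x s hs => ?_⟩
  have hx0 := (a1 x).1
  have hs0 := (a1 s).1
  have hxs0 := (a1 (x * s)).1
  have hks := hKs' s hs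
  have e1 : A.kk (x * s) ≤ K * A.kk x := by
    have h1 := a10 x s
    have h2 : A.kk (x * s) * 4 ≤ A.kk (x * s) * (K * A.kk s) := mul_le_mul_of_nonneg_left hks hxs0.le
    have h3 : K * (A.kk (x * s) * A.kk s) ≤ K * (4 * A.kk x) := mul_le_mul_of_nonneg_left h1 (by linarith)
    nlinarith
  have e2 : A.kk x ≤ K * A.kk (x * s) := by
    have h1 := a9 x s
    have h2 : A.kk x * 4 ≤ A.kk x * (K * A.kk s) := mul_le_mul_of_nonneg_left hks hx0.le
    have h3 : K * (A.kk x * A.kk s) ≤ K * (4 * A.kk (x * s)) := mul_le_mul_of_nonneg_left h1 (by linarith)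
    nlinarith
  have e3 : ‖A.pt (x * s) - A.pt x‖ ≤ K * A.kk x := by
    have h1 := a12 x s
    have h2 : A.kk s / 2 ≤ 1 - ‖A.pt s‖ := by
      unfold DiscRep.kk
      nlinarith [norm_nonneg (A.pt s), a4 s]
    have h4 : 1 - ‖A.pt s‖ ≤ ‖1 - conj (A.pt x⁻¹) * A.pt s‖ := by
      have h5 : ‖(1 : ℂ)‖ - ‖conj (A.pt x⁻¹) * A.pt s‖ ≤ ‖1 - conj (A.pt x⁻¹) * A.pt s‖ :=
        norm_sub_norm_le _ _
      rw [norm_one, norm_mul, RCLike.norm_conj] at h5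
      have h6 : ‖A.pt x⁻¹‖ * ‖A.pt s‖ ≤ 1 * ‖A.pt s‖ :=
        mul_le_mul_of_nonneg_right (a4 _).le (norm_nonneg _)
      linarith
    have h7 : A.kk s / 2 ≤ ‖1 - conj (A.pt x⁻¹) * A.pt s‖ := h2.trans h4
    have h8 : ‖A.pt (x * s) - A.pt x‖ * (A.kk s / 2) ≤ A.kk x := by
      calc ‖A.pt (x * s) - A.pt x‖ * (A.kk s / 2)
          ≤ ‖A.pt (x * s) - A.pt x‖ * ‖1 - conj (A.pt x⁻¹) * A.pt s‖ :=
            mul_le_mul_of_nonneg_left h7 (norm_nonneg _)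
        _ = A.kk x * ‖A.pt s‖ := h1
        _ ≤ A.kk x * 1 := mul_le_mul_of_nonneg_left (a4 s).le hx0.le
        _ = A.kk x := mul_one _
    have h9 : ‖A.pt (x * s) - A.pt x‖ * 4 ≤ ‖A.pt (x * s) - A.pt x‖ * (K * A.kk s) :=
      mul_le_mul_of_nonneg_left hks (norm_nonneg _)
    have h10 : K * (‖A.pt (x * s) - A.pt x‖ * (A.kk s / 2)) ≤ K * A.kk x :=
      mul_le_mul_of_nonneg_left h8 (by linarith)
    have h11 : 0 ≤ K * A.kk x := by positivity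
    nlinarith
  have hMx : K * A.kk x ≤ (1 + 2 * K) * (1 + 2 * K ^ 2) * A.kk x := mul_le_mul_of_nonneg_right hM hx0.le
  refine ⟨e1.trans hMx, e2.trans (mul_le_mul_of_nonneg_right hM hxs0.le), e3.trans hMx, fun u hu => ?_⟩
  set z : ℂ := A.pt x with hz
  set z' : ℂ := A.pt (x * s) with hz'
  have hz1 : ‖z‖ < 1 := a4 x
  have hz1' : ‖z'‖ < 1 := a4 (x * s)
  have hkx : A.kk x ≤ 2 * ‖u - z‖ := B10_kk u z hu hz1
  have hkx' : A.kk x ≤ K * (2 * ‖u + z'‖) := by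
    refine e2.trans (mul_le_mul_of_nonneg_left ?_ (by linarith))
    have := B10_kk u (-z') hu (by rwa [norm_neg])
    rw [norm_neg, sub_neg_eq_add] at this
    exact this
  have hup : 0 < ‖u + z‖ := by
    rw [norm_pos_iff]
    intro h
    have h1 : z = -u := by linear_combination h
    rw [h1, norm_neg, hu] at hz1
    exact lt_irrefl _ hz1
  have hup' : 0 < ‖u + z'‖ := by
    rw [norm_pos_iff]
    intro h
    have h1 : z' = -u := by linear_combination h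
    rw [h1, norm_neg, hu] at hz1'
    exact lt_irrefl _ hz1'
  have f1 : ‖u - z'‖ ≤ (1 + 2 * K) * ‖u - z‖ := by
    calc ‖u - z'‖ = ‖(u - z) - (z' - z)‖ := by ring_nf
      _ ≤ ‖u - z‖ + ‖z' - z‖ := norm_sub_le _ _
      _ ≤ ‖u - z‖ + K * (2 * ‖u - z‖) := by
          have := mul_le_mul_of_nonneg_left hkx (by linarith : 0 ≤ K)
          linarith
      _ = (1 + 2 * K) * ‖u - z‖ := by ring
  have f2 : ‖u + z‖ ≤ (1 + 2 * K ^ 2) * ‖u + z'‖ := by
    calc ‖u + z‖ = ‖(u + z') - (z' - z)‖ := by ring_nf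
      _ ≤ ‖u + z'‖ + ‖z' - z‖ := norm_sub_le _ _
      _ ≤ ‖u + z'‖ + K * (K * (2 * ‖u + z'‖)) := by
          have := mul_le_mul_of_nonneg_left hkx' (by linarith : 0 ≤ K)
          linarith
      _ = (1 + 2 * K ^ 2) * ‖u + z'‖ := by ring
  constructor
  · unfold DiscRep.Hu
    rw [← hz, ← hz', div_le_iff₀ hup', mul_assoc, div_mul_eq_mul_div, mul_div_assoc']
    rw [le_div_iff₀ hup]
    calc ‖u - z'‖ * ‖u + z‖ ≤ ((1 + 2 * K) * ‖u - z‖) * ((1 + 2 * K ^ 2) * ‖u + z'‖) :=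
          mul_le_mul f1 f2 (norm_nonneg _) (by positivity)
      _ = _ := by ring
  · intro hH
    unfold DiscRep.Hu at hH ⊢
    rw [← hz, ← hz'] at *
    rw [div_le_one hup] at hH
    have g1 : 1 ≤ ‖u + z‖ := by
      have h1 : ‖(2 : ℂ) * u‖ ≤ ‖u - z‖ + ‖u + z‖ := by
        calc ‖(2 : ℂ) * u‖ = ‖(u - z) + (u + z)‖ := by ring_nf
          _ ≤ _ := norm_add_le _ _
      rw [norm_mul, hu, Complex.norm_ofNat] at h1
      linarith
    have g2 : 1 ≤ (1 + 2 * K ^ 2) * ‖u + z'‖ := g1.trans f2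
    have hne : u + z ≠ 0 := norm_pos_iff.1 hup
    have hne' : u + z' ≠ 0 := norm_pos_iff.1 hup'
    have g3 : (u - z') / (u + z') - (u - z) / (u + z) = 2 * u * (z - z') / ((u + z') * (u + z)) := by
      field_simp
      ring
    have g4 : |‖u - z'‖ / ‖u + z'‖ - ‖u - z‖ / ‖u + z‖| ≤ 2 * ‖z' - z‖ / (‖u + z'‖ * ‖u + z‖) := by
      rw [← norm_div, ← norm_div]
      refine (abs_norm_sub_norm_le _ _).trans ?_
      rw [g3, norm_div, norm_mul, norm_mul, norm_mul, hu, Complex.norm_ofNat, mul_one, norm_sub_rev z z']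
    refine g4.trans ?_
    rw [div_le_iff₀ (by positivity)]
    have g5 : 1 ≤ (1 + 2 * K ^ 2) * (‖u + z'‖ * ‖u + z‖) := by
      have := mul_le_mul g2 g1 (by norm_num) (by positivity)
      linarith
    have g6 : 0 ≤ 2 * (K * A.kk x) := by positivity
    have g7 : 2 * (K * A.kk x) * 1 ≤ 2 * (K * A.kk x) * ((1 + 2 * K ^ 2) * (‖u + z'‖ * ‖u + z‖)) :=
      mul_le_mul_of_nonneg_left g5 g6
    have g8 : 0 ≤ (1 + 2 * K ^ 2) * A.kk x * (‖u + z'‖ * ‖u + z‖) := by positivity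
    calc 2 * ‖z' - z‖ ≤ 2 * (K * A.kk x) * 1 := by linarith
      _ ≤ _ := g7
      _ ≤ (1 + 2 * K) * (1 + 2 * K ^ 2) * A.kk x * (‖u + z'‖ * ‖u + z‖) := by nlinarith

end Pool.Agent.SG
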