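import Pool.Agent.helper48.SG.SpecH

set_option autoImplicit false

open MeasureTheory Set Metric Filter Topology
open scoped ENNReal NNReal ComplexConjugate

namespace Pool.Agent.SG

theorem H11_zero (h1 : H01_stmt) (h2 : H02_stmt) (Γ : Type) [Group Γ] (A : DiscRep Γ) (W : Walk Γ)
    (ν : Measure ℂ) (C : ℝ) (hC : Comp A W ν C) (u : ℂ) (c s : ℝ) (E : Set ℂ) (x : Γ)
    (hu : ‖u‖ = 1) (hc : 0 < c) (hsc : 8 * s ≤ c) (hE : MeasurableSet E) (hEf : E ⊆ far u c)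
    (hx : A.Hu u x ≤ s) (h0 : lam E = 0) : (nux A ν x).real E = 0 := by
  obtain ⟨-, -, -, -, hn, -, -, -⟩ := h1 Γ A W ν C hC
  obtain ⟨-, -, h3, -, h5, -⟩ := h2 Γ A u c s x E hu hc hsc hx hE hEf
  have h6 : sg u E = 0 := by
    rw [h0, mul_zero] at h5
    exact le_antisymm h5 bot_le
  have h7 : lax A x E = 0 := by
    rw [h6, mul_zero] at h3
    exact le_antisymm h3 bot_le
  have h8 := hn x E hE
  rw [h7, mul_zero] at h8
  have h9 : nux A ν x E = 0 := le_antisymm h8 bot_le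
  simp [Measure.real, h9]

theorem H11_iter (h9 : H09_stmt) (Γ : Type) [Group Γ] (A : DiscRep Γ) (W : Walk Γ)
    (ν : Measure ℂ) (C : ℝ) (hC : Comp A W ν C) : ∃ k θ : ℝ, 0 < k ∧ k < 1 ∧ 0 < θ ∧ θ < 1 ∧
    ∀ (u : ℂ) (c : ℝ) (E E' : Set ℂ), ‖u‖ = 1 → 0 < c → c ≤ 2 → MeasurableSet E →
    MeasurableSet E' → E ⊆ far u c → E' ⊆ far u c → ∀ a₀ b₀ : ℝ, 0 ≤ a₀ → a₀ ≤ b₀ →
    (∀ x, A.Hu u x ≤ c / 8 → a₀ * (nux A ν x).real E' ≤ (nux A ν x).real E ∧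
      (nux A ν x).real E ≤ b₀ * (nux A ν x).real E') →
    ∀ j : ℕ, ∃ a b : ℝ, a₀ ≤ a ∧ a ≤ b ∧ b - a ≤ θ ^ j * (b₀ - a₀) ∧
      ∀ x, A.Hu u x ≤ k ^ j * (c / 8) → a * (nux A ν x).real E' ≤ (nux A ν x).real E ∧
      (nux A ν x).real E ≤ b * (nux A ν x).real E' := by
  obtain ⟨k, θ, hk0, hk1, ht0, ht1, h⟩ := h9 Γ A W ν C hC
  refine ⟨k, θ, hk0, hk1, ht0, ht1, ?_⟩
  intro u c E E' hu hc hc2 hE hE' hEf hEf' a₀ b₀ ha₀ hab h0 j
  induction j with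
  | zero =>
    refine ⟨a₀, b₀, le_rfl, hab, by simp, ?_⟩
    intro x hx
    apply h0 x
    simpa using hx
  | succ j ih =>
    obtain ⟨a, b, h1, h2, h3, h4⟩ := ih
    have hkj : 0 < k ^ j := pow_pos hk0 j
    have hkj1 : k ^ j ≤ 1 := pow_le_one₀ hk0.le hk1.le
    have hs0 : 0 < k ^ j * (c / 8) := by positivity
    have hs8 : 8 * (k ^ j * (c / 8)) ≤ c := by nlinarith
    have hs1 : k ^ j * (c / 8) ≤ 1 := by nlinarith
    obtain ⟨a', b', g1, g2, g3, g4, g5⟩ := h u c (k ^ j * (c / 8)) E E' hu hc hs0 hs8 hs1 hE hE'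
      hEf hEf' a b (le_trans ha₀ h1) h2 h4
    refine ⟨a', b', le_trans h1 g1, g3, ?_, ?_⟩
    · calc b' - a' ≤ θ * (b - a) := g4
        _ ≤ θ * (θ ^ j * (b₀ - a₀)) := by gcongr
        _ = θ ^ (j + 1) * (b₀ - a₀) := by ring
    · intro x hx
      apply g5 x
      calc A.Hu u x ≤ k ^ (j + 1) * (c / 8) := hx
        _ = k * (k ^ j * (c / 8)) := by ring

theorem H11_pow (k θ : ℝ) (hk0 : 0 < k) (hk1 : k < 1) (ht0 : 0 < θ) (ht1 : θ < 1) :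
    ∃ α : ℝ, 0 < α ∧ α ≤ 1 ∧ ∀ r : ℝ, 0 < r → r ≤ 1 / 8 → ∃ j : ℕ, 8 * r ≤ k ^ j ∧
      θ ^ j ≤ 8 * θ⁻¹ * r ^ α := by
  have hlk : Real.log k < 0 := Real.log_neg hk0 hk1
  have hlt : Real.log θ < 0 := Real.log_neg ht0 ht1
  set α₁ : ℝ := Real.log θ / Real.log k with hα₁
  have hα₁0 : 0 < α₁ := div_pos_of_neg_of_neg hlt hlk
  have hkα : k ^ α₁ = θ := by
    rw [Real.rpow_def_of_pos hk0, hα₁, mul_div_cancel₀ _ hlk.ne, Real.exp_log ht0]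
  refine ⟨min α₁ 1, lt_min hα₁0 one_pos, min_le_right _ _, ?_⟩
  intro r hr hr8
  have h8r : 0 < 8 * r := by linarith
  have hex : ∃ n : ℕ, k ^ n < 8 * r := exists_pow_lt_of_lt_one h8r hk1
  classical
  set n := Nat.find hex with hn
  have hn1 : k ^ n < 8 * r := Nat.find_spec hex
  have hnpos : n ≠ 0 := by
    intro h0
    rw [h0, pow_zero] at hn1
    linarith
  obtain ⟨j, hj⟩ := Nat.exists_eq_succ_of_ne_zero hnpos
  refine ⟨j, ?_, ?_⟩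
  · have hjn : j < Nat.find hex := by
      rw [← hn, hj]
      exact Nat.lt_succ_self j
    have := Nat.find_min hex hjn
    exact not_lt.mp this
  · have h1 : θ ^ (j + 1) ≤ 8 * r ^ (min α₁ 1) := by
      have e1 : θ ^ (j + 1) = (k ^ (j + 1)) ^ α₁ := by
        rw [← hkα, ← Real.rpow_natCast (k ^ α₁) (j + 1), ← Real.rpow_natCast k (j + 1),
          ← Real.rpow_mul hk0.le, ← Real.rpow_mul hk0.le, mul_comm]
      have hkn : k ^ (j + 1) ≤ 8 * r := by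
        have := hn1.le
        rwa [hj] at this
      calc θ ^ (j + 1) = (k ^ (j + 1)) ^ α₁ := e1
        _ ≤ (8 * r) ^ α₁ := Real.rpow_le_rpow (pow_pos hk0 _).le hkn hα₁0.le
        _ ≤ (8 * r) ^ (min α₁ 1) :=
            Real.rpow_le_rpow_of_exponent_ge h8r (by linarith) (min_le_left _ _)
        _ = 8 ^ (min α₁ 1) * r ^ (min α₁ 1) := Real.mul_rpow (by norm_num) hr.le
        _ ≤ 8 ^ (1 : ℝ) * r ^ (min α₁ 1) := by
            apply mul_le_mul_of_nonneg_right _ (Real.rpow_nonneg hr.le _)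
            exact Real.rpow_le_rpow_of_exponent_le (by norm_num) (min_le_right _ _)
        _ = 8 * r ^ (min α₁ 1) := by rw [Real.rpow_one]
    calc θ ^ j = θ⁻¹ * θ ^ (j + 1) := by
          rw [pow_succ]
          field_simp
      _ ≤ θ⁻¹ * (8 * r ^ (min α₁ 1)) := by
          apply mul_le_mul_of_nonneg_left h1 (inv_nonneg.mpr ht0.le)
      _ = 8 * θ⁻¹ * r ^ (min α₁ 1) := by ring

theorem H11 (h1 : H01_stmt) (h2 : H02_stmt) (h9 : H09_stmt) (h10 : H10_stmt) : H11_stmt := by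
  intro Γ _ A W ν C hC
  obtain ⟨k, θ, hk0, hk1, ht0, ht1, hit⟩ := H11_iter h9 Γ A W ν C hC
  obtain ⟨α, hα0, hα1, hpow⟩ := H11_pow k θ hk0 hk1 ht0 ht1
  have hC1 : 1 ≤ C := hC.one
  have hC0 : 0 < C := by linarith
  refine ⟨128 * C ^ 4 * θ⁻¹, α, by positivity, hα0, hα1, ?_⟩
  intro u c s E E' x y hu hc hc2 hs hsc hE hE' hEf hEf' hx hy
  have hfac : 0 ≤ 1 + 128 * C ^ 4 * θ⁻¹ * (s / c) ^ α := by positivity
  have hR : 0 ≤ (1 + 128 * C ^ 4 * θ⁻¹ * (s / c) ^ α) *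
      ((nux A ν y).real E * (nux A ν x).real E') :=
    mul_nonneg hfac (mul_nonneg measureReal_nonneg measureReal_nonneg)
  by_cases hl : lam E = 0
  · rw [H11_zero h1 h2 Γ A W ν C hC u c s E x hu hc hsc hE hEf hx hl, zero_mul]
    exact hR
  by_cases hl' : lam E' = 0
  · rw [H11_zero h1 h2 Γ A W ν C hC u c s E' y hu hc hsc hE' hEf' hy hl', mul_zero]
    exact hR
  obtain ⟨a₀, ha₀, h0⟩ := h10 Γ A W ν C hC u c (c / 8) E E' hu hc (by linarith) hE hE' hEf hEf'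
    hl hl'
  have hC4 : 1 ≤ C ^ 4 := one_le_pow₀ hC1
  have hab : a₀ ≤ 16 * C ^ 4 * a₀ := by nlinarith
  obtain ⟨j, hj1, hj2⟩ := hpow (s / c) (div_pos hs hc) (by rw [div_le_iff₀ hc]; linarith)
  obtain ⟨a, b, g1, g2, g3, g4⟩ := hit u c E E' hu hc hc2 hE hE' hEf hEf' a₀ (16 * C ^ 4 * a₀)
    ha₀.le hab h0 j
  have hsj : s ≤ k ^ j * (c / 8) := by
    have : 8 * (s / c) * (c / 8) ≤ k ^ j * (c / 8) := by gcongr
    have e : 8 * (s / c) * (c / 8) = s := by field_simp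
    linarith
  obtain ⟨-, gx⟩ := g4 x (le_trans hx hsj)
  obtain ⟨gy, -⟩ := g4 y (le_trans hy hsj)
  have ha : 0 < a := lt_of_lt_of_le ha₀ g1
  have htj : 0 < θ ^ j := pow_pos ht0 j
  have hb : b ≤ (1 + 128 * C ^ 4 * θ⁻¹ * (s / c) ^ α) * a := by
    have e1 : b - a ≤ θ ^ j * (16 * C ^ 4 * a) := by
      calc b - a ≤ θ ^ j * (16 * C ^ 4 * a₀ - a₀) := g3
        _ ≤ θ ^ j * (16 * C ^ 4 * a₀) := by gcongr; linarith
        _ ≤ θ ^ j * (16 * C ^ 4 * a) := by gcongr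
    have e2 : θ ^ j * (16 * C ^ 4 * a) ≤ (8 * θ⁻¹ * (s / c) ^ α) * (16 * C ^ 4 * a) := by
      gcongr
    calc b ≤ a + (8 * θ⁻¹ * (s / c) ^ α) * (16 * C ^ 4 * a) := by linarith
      _ = (1 + 128 * C ^ 4 * θ⁻¹ * (s / c) ^ α) * a := by ring
  have nx : 0 ≤ (nux A ν x).real E' := measureReal_nonneg
  have ny : 0 ≤ (nux A ν y).real E' := measureReal_nonneg
  calc (nux A ν x).real E * (nux A ν y).real E'
      ≤ (b * (nux A ν x).real E') * (nux A ν y).real E' := by gcongr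
    _ ≤ (((1 + 128 * C ^ 4 * θ⁻¹ * (s / c) ^ α) * a) * (nux A ν x).real E') *
        (nux A ν y).real E' := by gcongr
    _ = (1 + 128 * C ^ 4 * θ⁻¹ * (s / c) ^ α) * ((a * (nux A ν y).real E') *
        (nux A ν x).real E') := by ring
    _ ≤ (1 + 128 * C ^ 4 * θ⁻¹ * (s / c) ^ α) * ((nux A ν y).real E *
        (nux A ν x).real E') := by gcongr

end Pool.Agent.SG
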