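import Pool.Agent.helper56.SG.SpecG

/-!
# Project sg, module ANA: the operator through the weights
-/

set_option autoImplicit false

open MeasureTheory Set Metric Filter Topology
open scoped ENNReal NNReal ComplexConjugate
open Pool.Agent.SG

noncomputable section

namespace Pool.Agent.SGG

theorem ANA (hPPF : PPF_stmt) (hHYC : HYC_stmt) (hKNB : KNB_stmt) (hLFI : LFI_stmt)
    (hUNF : UNF_stmt) : ANA_stmt := by
  classical
  intro Γ _ A hd t ht0 ht1 r hr0 hr1
  obtain ⟨σ, -, hσ1, hσ⟩ := hPPF.2.2.2.2 t r ht0 hr0 hr1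
  have hfin := hLFI Γ A hd r σ hr1 hσ1
  set S₀ : Finset Γ := hfin.toFinset with hS₀
  refine ⟨S₀ ∪ S₀.image (fun γ => γ⁻¹), fun γ hγ => ?_, fun χ hχ φ hφ u hu hE x hx => ?_⟩
  · rw [Finset.mem_union, Finset.mem_image] at hγ ⊢
    rcases hγ with h | ⟨δ, hδ, rfl⟩
    · exact Or.inr ⟨γ, h, rfl⟩
    · left
      rwa [inv_inv]
  have hx1 : x ∈ ball (0 : ℂ) 1 := by
    rw [mem_ball_zero_iff]
    exact hx.trans_lt hr1
  obtain ⟨hN, hK⟩ := hKNB t ht0 ht1
  obtain ⟨hc, hint, hI⟩ := hK x hx1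
  have hg : CB (fun y => ker t x y * (u y - u x)) :=
    ContinuousOn.mul hc (ContinuousOn.sub hu continuousOn_const)
  have hg0 : ∀ z ∈ ball (0 : ℂ) 1, σ < ‖z‖ → ker t x z * (u z - u x) = 0 := by
    intro z hz hσz
    have h1 : ¬ t < pp x z := fun h2 =>
      absurd (hσ x z hx (mem_ball_zero_iff.1 hz) h2) (not_le.2 hσz)
    have h3 : ker t x z = 0 := by
      unfold ker
      exact max_eq_left (by linarith)
    rw [h3, zero_mul]
  have hU := hUNF Γ A χ r hχ (fun y => ker t x y * (u y - u x)) σ hg hσ1 hg0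
    (S₀ ∪ S₀.image (fun γ => γ⁻¹)) (fun γ hγ => by
      rw [Finset.mem_union]
      left
      rw [hS₀, Set.Finite.mem_toFinset]
      exact hγ)
  have hker : Integrable (fun y => ker t x y) hyp := by
    have h1 := hI (fun _ => 1) continuousOn_const
    simpa using h1
  have hL : ∫ y, ker t x y * (u y - u x) ∂hyp = NN t * (KK t u x - u x) := by
    have h1 : ∀ y, ker t x y * (u y - u x) = ker t x y * u y - u x * ker t x y := fun y => by ring
    simp only [h1]
    rw [integral_sub (hI u hu) (hker.const_mul _), integral_const_mul, hint]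
    unfold KK
    field_simp
  rw [← hL, hU]
  refine integral_congr_ae ?_
  have hae : ∀ᵐ y ∂hyp, y ∈ ball (0 : ℂ) 1 := by
    rw [ae_iff]
    exact hHYC.1
  filter_upwards [hae] with y hy
  congr 1
  refine Finset.sum_congr rfl fun γ _ => ?_
  rw [hE γ y hy]

end Pool.Agent.SGG
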