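import Pool.Agent.helper56.SG.SpecG

/-!
# Project sg, module CHI: existence of the weights
-/

set_option autoImplicit false

open MeasureTheory Set Metric Filter Topology
open scoped ENNReal NNReal ComplexConjugate
open Pool.Agent.SG

noncomputable section

namespace Pool.Agent.SGG

theorem CHI (hACT : ACT_stmt) (hLSU : LSU_stmt) : CHI_stmt := by
  classical
  intro Γ _ A hd hco
  obtain ⟨r₀, hr₀, hco⟩ := hco
  have hr₀0 : 0 ≤ r₀ := by
    obtain ⟨γ, hγ⟩ := hco 0 (by simp)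
    exact (norm_nonneg _).trans hγ
  obtain ⟨r, hr⟩ : ∃ r : ℝ, r = (1 + r₀) / 2 := ⟨_, rfl⟩
  have hr1 : r < 1 := by rw [hr]; linarith
  have hrr : r₀ < r := by rw [hr]; linarith
  obtain ⟨η, hη⟩ : ∃ η : ℂ → ℝ, η = fun z => max 0 (r - ‖z‖) := ⟨_, rfl⟩
  have hηz : ∀ z, η z = max 0 (r - ‖z‖) := fun z => by rw [hη]
  have hηc : Continuous η := by rw [hη]; fun_prop
  have hη0 : ∀ z, 0 ≤ η z := fun z => by rw [hηz]; exact le_max_left _ _
  have hηr : ∀ z ∈ ball (0 : ℂ) 1, r < ‖z‖ → η z = 0 := fun z _ h => by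
    rw [hηz]
    exact max_eq_left (by linarith)
  obtain ⟨hsc, hsf, hsS⟩ := hLSU Γ A hd η r hηc.continuousOn hr1 hηr (fun _ => 1)
  obtain ⟨s, hs⟩ : ∃ s : ℂ → ℝ, s = fun z => ∑' γ, (1 : ℝ) * η (A.act γ z) := ⟨_, rfl⟩
  have hsz : ∀ z, s z = ∑' γ, (1 : ℝ) * η (A.act γ z) := fun z => by rw [hs]
  have hsc' : CB s := by rw [hs]; exact hsc
  have hact : ∀ γ, ∀ z ∈ ball (0 : ℂ) 1, A.act γ z ∈ ball (0 : ℂ) 1 := fun γ z hz =>
    ((hACT Γ A z hz).1 γ).2.1
  have hsi : ∀ δ, ∀ z ∈ ball (0 : ℂ) 1, s (A.act δ z) = s z := by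
    intro δ z hz
    rw [hsz, hsz]
    have h1 : ∀ γ, (1 : ℝ) * η (A.act γ (A.act δ z)) = (fun γ => (1 : ℝ) * η (A.act γ z)) (γ * δ) := by
      intro γ
      simp only
      rw [(hACT Γ A z hz).2.2 γ δ]
    simp only [h1]
    exact (Equiv.mulRight δ).tsum_eq (fun γ => (1 : ℝ) * η (A.act γ z))
  have hspos : ∀ z ∈ ball (0 : ℂ) 1, 0 < s z := by
    intro z hz
    obtain ⟨γ, hγ⟩ := hco z (mem_ball_zero_iff.1 hz)
    rw [hsz, hsS z hz (insert γ (hsf z hz).toFinset) (fun δ hδ => by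
      rw [Finset.mem_insert, Set.Finite.mem_toFinset]
      exact Or.inr hδ)]
    refine Finset.sum_pos' (fun δ _ => by rw [one_mul]; exact hη0 _)
      ⟨γ, Finset.mem_insert_self _ _, ?_⟩
    rw [one_mul, hηz]
    exact lt_max_of_lt_right (by linarith)
  have hχ : ∀ z ∈ ball (0 : ℂ) 1, (if z ∈ ball (0 : ℂ) 1 then η z / s z else 0) = η z / s z :=
    fun z hz => if_pos hz
  refine ⟨fun z => if z ∈ ball (0 : ℂ) 1 then η z / s z else 0, r, ?_⟩
  constructor
  · linarith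
  · exact hr1
  · refine ContinuousOn.congr (f := fun z => η z / s z) ?_ hχ
    exact hηc.continuousOn.div hsc' fun z hz => (hspos z hz).ne'
  · intro z
    split_ifs with h
    · exact div_nonneg (hη0 z) (hspos z h).le
    · exact le_rfl
  · intro z hz hzr
    rw [hχ z hz, hηr z hz hzr, zero_div]
  · intro z hz S hS
    have h1 : ∀ γ, (if A.act γ z ∈ ball (0 : ℂ) 1 then η (A.act γ z) / s (A.act γ z) else 0) =
        η (A.act γ z) / s z := by
      intro γ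
      rw [hχ _ (hact γ z hz), hsi γ z hz]
    have h2 := hspos z hz
    rw [Finset.sum_congr rfl fun γ _ => h1 γ, ← Finset.sum_div, div_eq_one_iff_eq h2.ne', hsz,
      hsS z hz S (fun γ hγ => hS γ (by rw [h1 γ]; exact div_ne_zero hγ h2.ne'))]
    simp

end Pool.Agent.SGG
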