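import Pool.Agent.helper24.SG.SpecD

/-!
# Project sg, module D02: basic properties of the arcs
-/

set_option autoImplicit false

open MeasureTheory Set Metric Filter Topology
open scoped ENNReal NNReal ComplexConjugate

namespace Pool.Agent.SG

theorem D02_lip (x y : ℝ) : ‖Complex.exp (2 * Real.pi * x * Complex.I) -
    Complex.exp (2 * Real.pi * y * Complex.I)‖ ≤ 2 * Real.pi * |x - y| := by
  have h1 : Complex.exp (2 * Real.pi * x * Complex.I) - Complex.exp (2 * Real.pi * y * Complex.I) =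
      Complex.exp (((2 * Real.pi * y : ℝ) : ℂ) * Complex.I) *
        (Complex.exp (Complex.I * ((2 * Real.pi * (x - y) : ℝ) : ℂ)) - 1) := by
    rw [mul_sub, ← Complex.exp_add, mul_one]
    push_cast
    ring_nf
  rw [h1, norm_mul, Complex.norm_exp_ofReal_mul_I, one_mul]
  refine Real.norm_exp_I_mul_ofReal_sub_one_le.trans ?_
  rw [Real.norm_eq_abs, abs_mul, abs_of_pos (by positivity : (0 : ℝ) < 2 * Real.pi)]

theorem D02 : D02_stmt := by
  intro q hq
  have hq0 : (0 : ℝ) < q := by exact_mod_cast hq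
  refine ⟨fun n ξ hξ => ?_, fun n k => ?_, fun n k ξ hξ η hη => ?_, fun n k => ?_⟩
  · have hqn : (0 : ℝ) < (q : ℝ) ^ n := by positivity
    have hn : ‖ξ‖ = 1 := by
      unfold circ at hξ
      rwa [mem_sphere_zero_iff_norm] at hξ
    obtain ⟨x, hx⟩ : ∃ x : ℝ, x = Int.fract (ξ.arg / (2 * Real.pi)) := ⟨_, rfl⟩
    have hx0 : 0 ≤ x := by rw [hx]; exact Int.fract_nonneg _
    have hx1 : x < 1 := by rw [hx]; exact Int.fract_lt_one _
    have hexp : Complex.exp (2 * Real.pi * x * Complex.I) = ξ := by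
      have h1 : ξ = Complex.exp (ξ.arg * Complex.I) := by
        conv_lhs => rw [← Complex.norm_mul_exp_arg_mul_I ξ]
        rw [hn]
        simp
      have h2 : (x : ℂ) = ((ξ.arg / (2 * Real.pi) : ℝ) : ℂ) - ((⌊ξ.arg / (2 * Real.pi)⌋ : ℤ) : ℂ) := by
        rw [hx, ← Int.self_sub_floor]
        push_cast
        ring
      conv_rhs => rw [h1]
      rw [Complex.exp_eq_exp_iff_exists_int]
      refine ⟨-⌊ξ.arg / (2 * Real.pi)⌋, ?_⟩
      rw [h2]
      push_cast
      have : (Real.pi : ℂ) ≠ 0 := by exact_mod_cast Real.pi_ne_zero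
      field_simp
      ring
    refine ⟨⌊x * (q : ℝ) ^ n⌋₊, ?_, x, ⟨?_, ?_⟩, hexp⟩
    · rw [Nat.floor_lt (by positivity)]
      push_cast
      nlinarith
    · rw [div_le_iff₀ hqn]
      exact Nat.floor_le (by positivity)
    · rw [lt_div_iff₀ hqn]
      exact Nat.lt_floor_add_one _
  · refine image_mono (Ico_subset_Ico ?_ ?_)
    · rw [div_le_div_iff₀ (by positivity) (by positivity)]
      have h1 : k / q * q ≤ k := Nat.div_mul_le_self k q
      have h2 : ((k / q : ℕ) : ℝ) * q ≤ k := by exact_mod_cast h1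
      calc ((k / q : ℕ) : ℝ) * (q : ℝ) ^ (n + 1) = (((k / q : ℕ) : ℝ) * q) * (q : ℝ) ^ n := by ring
        _ ≤ k * (q : ℝ) ^ n := mul_le_mul_of_nonneg_right h2 (by positivity)
    · rw [div_le_div_iff₀ (by positivity) (by positivity)]
      have h1 : k + 1 ≤ (k / q + 1) * q := by
        have := Nat.lt_div_mul_add (a := k) (b := q) (by omega)
        rw [add_mul, one_mul]
        omega
      have h2 : (k : ℝ) + 1 ≤ (((k / q : ℕ) : ℝ) + 1) * q := by exact_mod_cast h1
      calc ((k : ℝ) + 1) * (q : ℝ) ^ n ≤ ((((k / q : ℕ) : ℝ) + 1) * q) * (q : ℝ) ^ n :=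
            mul_le_mul_of_nonneg_right h2 (by positivity)
        _ = (((k / q : ℕ) : ℝ) + 1) * (q : ℝ) ^ (n + 1) := by ring
  · obtain ⟨x, hx, rfl⟩ := hξ
    obtain ⟨y, hy, rfl⟩ := hη
    refine (D02_lip x y).trans ?_
    have h1 : |x - y| ≤ 1 / (q : ℝ) ^ n := by
      have h2 : ((k : ℝ) + 1) / (q : ℝ) ^ n = (k : ℝ) / (q : ℝ) ^ n + 1 / (q : ℝ) ^ n := by ring
      rw [abs_le]
      constructor <;> linarith [hx.1, hx.2, hy.1, hy.2]
    calc 2 * Real.pi * |x - y| ≤ 2 * Real.pi * (1 / (q : ℝ) ^ n) :=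
          mul_le_mul_of_nonneg_left h1 (by positivity)
      _ = 2 * Real.pi / (q : ℝ) ^ n := by ring
  · rintro _ ⟨x, -, rfl⟩
    unfold circ
    rw [mem_sphere_zero_iff_norm]
    have : (2 * (Real.pi : ℂ) * x * Complex.I) = ((2 * Real.pi * x : ℝ) : ℂ) * Complex.I := by
      push_cast; ring
    simp only [this]
    exact Complex.norm_exp_ofReal_mul_I _

end Pool.Agent.SG
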