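import Pool.Agent.helper17.SG.SpecM

/-!
# Project sg, module M07: uniqueness of the stationary measure
-/

set_option autoImplicit false

open MeasureTheory Set Metric Filter Topology
open scoped ENNReal NNReal ComplexConjugate

namespace Pool.Agent.SG

theorem M07_le (h1 : M01_stmt) (h3 : M03_stmt) (h4 : M04_stmt) (h5 : M05_stmt) (h6 : M06_stmt)
    (h14 : B14_stmt) {Γ : Type} [Group Γ] (A : DiscRep Γ) (W : Walk Γ) (ν ν' : Measure ℂ)
    (hd : A.Discrete) (hn : A.NonEl) (h : Stat A W ν) (h' : Stat A W ν') (F : Set ℂ)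
    (hF : IsClosed F) : ν F ≤ ν' F := by
  have : Infinite Γ := (h14 Γ A).1 hn
  have := h.prob
  have := h'.prob
  obtain ⟨M, -, hM6⟩ := h6 Γ A W hd
  have hp : ∀ w, IsProbabilityMeasure (nux A ν w) := (h1 Γ A W ν h).1
  have hp' : ∀ w, IsProbabilityMeasure (nux A ν' w) := (h1 Γ A W ν' h').1
  have key : ∀ δ : ℝ, 0 < δ → ∀ ε : ℝ≥0∞, ε ≠ 0 → ν F ≤ ν' (cthickening δ F) + ε := by
    intro δ hδ ε hε
    obtain ⟨r₁, hr₁, hb₁⟩ := h4 ν h.supp (h3 Γ A W ν h hn) ε hε
    obtain ⟨r₂, hr₂, hb₂⟩ := h4 ν' h'.supp (h3 Γ A W ν' h' hn) ε hε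
    obtain ⟨C, hC⟩ : ∃ C : ℝ, C = 1 / min r₁ r₂ := ⟨_, rfl⟩
    have hr : 0 < min r₁ r₂ := lt_min hr₁ hr₂
    have hC0 : 0 < C := by rw [hC]; positivity
    have hCr : 1 / C = min r₁ r₂ := by rw [hC, one_div_one_div]
    have c1 : ∀ z : ℂ, ν (closedBall z (1 / C)) ≤ ε := fun z => by
      rw [hCr]
      exact (measure_mono (closedBall_subset_closedBall (min_le_left _ _))).trans (hb₁ z)
    have c2 : ∀ z : ℂ, ν' (closedBall z (1 / C)) ≤ ε := fun z => by
      rw [hCr]
      exact (measure_mono (closedBall_subset_closedBall (min_le_right _ _))).trans (hb₂ z)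
    obtain ⟨τ, hτ⟩ : ∃ τ : ℝ, τ = min 1 (δ / (2 * C)) := ⟨_, rfl⟩
    have hτ0 : 0 < τ := by rw [hτ]; exact lt_min one_pos (by positivity)
    have hτ1 : τ ≤ 1 := by rw [hτ]; exact min_le_left _ _
    have hτδ : 2 * (C * τ) ≤ δ := by
      have h2 : τ ≤ δ / (2 * C) := by rw [hτ]; exact min_le_right _ _
      rw [le_div_iff₀ (by positivity)] at h2
      linarith
    obtain ⟨π, hπ1, -, hπ3, hπ4⟩ := hM6 τ hτ0 hτ1
    rw [hπ4 ν h F hF.measurableSet, hπ4 ν' h' _ isClosed_cthickening.measurableSet]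
    calc ∑' w, π w * nux A ν w F
        ≤ ∑' w, (π w * nux A ν' w (cthickening δ F) + π w * ε) := ENNReal.tsum_le_tsum fun w => ?_
      _ = ∑' w, π w * nux A ν' w (cthickening δ F) + ε := by
          rw [ENNReal.tsum_add, ENNReal.tsum_mul_right, hπ1, one_mul]
    by_cases hw : π w = 0
    · simp [hw]
    have hkw : A.kk w ≤ τ := (hπ3 w hw).2
    rw [← mul_add]
    refine mul_le_mul_right ?_ _
    have := hp w
    have := hp' w
    by_cases hFB : (F ∩ closedBall (A.pt w) (C * A.kk w)).Nonempty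
    · obtain ⟨ξ, hξF, hξB⟩ := hFB
      have hsub : closedBall (A.pt w) (C * A.kk w) ⊆ cthickening δ F := by
        intro η hη
        refine mem_cthickening_of_dist_le η ξ δ F hξF ?_
        rw [mem_closedBall] at hη hξB
        have h7 : C * A.kk w ≤ C * τ := mul_le_mul_of_nonneg_left hkw hC0.le
        calc dist η ξ ≤ dist η (A.pt w) + dist ξ (A.pt w) := dist_triangle_right _ _ _
          _ ≤ δ := by linarith
      calc nux A ν w F ≤ 1 := prob_le_one
        _ = nux A ν' w univ := measure_univ.symm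
        _ = nux A ν' w (closedBall (A.pt w) (C * A.kk w) ∪ (closedBall (A.pt w) (C * A.kk w))ᶜ) := by
            rw [union_compl_self]
        _ ≤ nux A ν' w (closedBall (A.pt w) (C * A.kk w)) +
            nux A ν' w (closedBall (A.pt w) (C * A.kk w))ᶜ := measure_union_le _ _
        _ ≤ nux A ν' w (cthickening δ F) + ε :=
            add_le_add (measure_mono hsub) (h5 Γ A W ν' h' C ε hC0 c2 w)
    · have hsub : F ⊆ (closedBall (A.pt w) (C * A.kk w))ᶜ := by
        intro ξ hξ hξB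
        exact hFB ⟨ξ, hξ, hξB⟩
      exact (measure_mono hsub).trans ((h5 Γ A W ν h C ε hC0 c1 w).trans le_add_self)
  have key2 : ∀ δ : ℝ, 0 < δ → ν F ≤ ν' (cthickening δ F) := fun δ hδ =>
    ENNReal.le_of_forall_pos_le_add fun ε hε _ => key δ hδ ε (by
      rw [Ne, ENNReal.coe_eq_zero]; exact hε.ne')
  have hlim : Tendsto (fun r => ν' (cthickening r F)) (𝓝[>] 0) (𝓝 (ν' F)) :=
    (tendsto_measure_cthickening_of_isClosed ⟨1, one_pos, measure_ne_top _ _⟩ hF).mono_left
      nhdsWithin_le_nhds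
  exact ge_of_tendsto hlim (by
    filter_upwards [self_mem_nhdsWithin] with δ hδ
    exact key2 δ hδ)

theorem M07 (h1 : M01_stmt) (h3 : M03_stmt) (h4 : M04_stmt) (h5 : M05_stmt) (h6 : M06_stmt)
    (h14 : B14_stmt) : M07_stmt := by
  intro Γ _ A W ν ν' h h'
  have := h.prob
  have := h'.prob
  refine ext_of_generate_finite {s : Set ℂ | IsClosed s}
    (BorelSpace.measurable_eq.trans borel_eq_generateFrom_isClosed) isPiSystem_isClosed
    (fun F hF => le_antisymm ?_ ?_) (by rw [measure_univ, measure_univ])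
  · exact M07_le h1 h3 h4 h5 h6 h14 A W ν ν' h.disc h.nonel h.toStat h' F hF
  · exact M07_le h1 h3 h4 h5 h6 h14 A W ν' ν h.disc h.nonel h' h.toStat F hF

end Pool.Agent.SG
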