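import Pool.Agent.helper17.SG.SpecR

/-!
# Project sg, module R08: three lines estimate
-/

set_option autoImplicit false

open MeasureTheory Set Metric Filter Topology
open scoped ENNReal NNReal ComplexConjugate

namespace Pool.Agent.SG

section
variable {Γ : Type} [Group Γ]

theorem R08_hit (hP1 : P01_stmt) (W : Walk Γ) (x y : Γ) : W.hit x y = W.hit 1 (x⁻¹ * y) := by
  have h := (hP1 Γ W).2.2.2.2 x⁻¹ x y
  rw [inv_mul_cancel] at h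
  exact h.symm

/-- the kernel bound. -/
theorem R08_ker (hP1 : P01_stmt) (h18 : B18_stmt) (A : DiscRep Γ) (W : Walk Γ) {CU K t : ℝ} {u : ℂ}
    (hpos : ∀ γ, 0 < A.kk γ) (hCU : 0 < CU) (hU : ∀ g, W.hit 1 g ≤ ENNReal.ofReal (CU * A.kk g))
    (hu : ‖u‖ = 1) (ht0 : 0 < t) (ht1 : t ≤ 1) {x y : Γ} (hx : A.Hu u x < t)
    (hxK : t ≤ K * A.Hu u x) (hy : A.Hu u y ≤ A.Hu u x / 2) :
    W.hit x y ≤ ENNReal.ofReal (16 * CU * K ^ 2 / t ^ 2 * (A.kk x * A.kk y)) := by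
  rw [R08_hit hP1]
  refine (hU _).trans (ENNReal.ofReal_le_ofReal ?_)
  have h1 := (h18 Γ A u hu).1 x y (hx.le.trans ht1) hy
  have h2 : t ^ 2 ≤ K ^ 2 * A.Hu u x ^ 2 := by
    rw [← mul_pow]
    exact pow_le_pow_left₀ ht0.le hxK 2
  have h3 : A.kk (x⁻¹ * y) * t ^ 2 ≤ 16 * K ^ 2 * (A.kk x * A.kk y) := by
    calc A.kk (x⁻¹ * y) * t ^ 2 ≤ A.kk (x⁻¹ * y) * (K ^ 2 * A.Hu u x ^ 2) :=
          mul_le_mul_of_nonneg_left h2 (hpos _).le
      _ = K ^ 2 * (A.kk (x⁻¹ * y) * A.Hu u x ^ 2) := by ring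
      _ ≤ K ^ 2 * (16 * A.kk x * A.kk y) := mul_le_mul_of_nonneg_left h1 (sq_nonneg _)
      _ = _ := by ring
  have h4 : A.kk (x⁻¹ * y) ≤ 16 * K ^ 2 * (A.kk x * A.kk y) / t ^ 2 := by
    rw [le_div_iff₀ (by positivity)]
    exact h3
  calc CU * A.kk (x⁻¹ * y) ≤ CU * (16 * K ^ 2 * (A.kk x * A.kk y) / t ^ 2) :=
        mul_le_mul_of_nonneg_left h4 hCU.le
    _ = _ := by ring

/-- sums of squares over a layer. -/
theorem R08_sq (A : DiscRep Γ) {M C t η : ℝ} {u : ℂ} (ht0 : 0 < t)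
    (hη : 0 < η)
    (h : ∑' γ, (lay A u M t ∩ {γ | A.kk γ ≤ η * t}).indicator A.ke γ ≤ ENNReal.ofReal (C * η * t)) :
    ∑' γ, (lay A u M t ∩ {γ | A.kk γ ≤ η * t}).indicator (fun γ => A.ke γ * A.ke γ) γ ≤
      ENNReal.ofReal (C * (η * t) ^ 2) := by
  have h0 : 0 ≤ η * t := by positivity
  calc ∑' γ, (lay A u M t ∩ {γ | A.kk γ ≤ η * t}).indicator (fun γ => A.ke γ * A.ke γ) γ
      ≤ ∑' γ, ENNReal.ofReal (η * t) * (lay A u M t ∩ {γ | A.kk γ ≤ η * t}).indicator A.ke γ := by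
        refine ENNReal.tsum_le_tsum fun γ => ?_
        by_cases hγ : γ ∈ lay A u M t ∩ {γ | A.kk γ ≤ η * t}
        · rw [indicator_of_mem hγ, indicator_of_mem hγ]
          exact mul_le_mul_left (ENNReal.ofReal_le_ofReal hγ.2) _
        · rw [indicator_of_notMem hγ, indicator_of_notMem hγ, mul_zero]
    _ = ENNReal.ofReal (η * t) *
        ∑' γ, (lay A u M t ∩ {γ | A.kk γ ≤ η * t}).indicator A.ke γ := ENNReal.tsum_mul_left
    _ ≤ ENNReal.ofReal (η * t) * ENNReal.ofReal (C * η * t) := mul_le_mul_right h _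
    _ = ENNReal.ofReal (C * (η * t) ^ 2) := by
        rw [← ENNReal.ofReal_mul h0]
        congr 1
        ring

/-- a uniform positive lower bound on a finite set. -/
theorem R08_min (hP1 : P01_stmt) (hP4 : P04_stmt) (W : Walk Γ) (F : Finset Γ) :
    ∃ a : ℝ, 0 < a ∧ ∀ γ ∈ F, ENNReal.ofReal a ≤ W.hit 1 γ := by
  classical
  induction F using Finset.induction_on with
  | empty => exact ⟨1, one_pos, fun γ hγ => absurd hγ (Finset.notMem_empty _)⟩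
  | insert g F _ ih =>
    obtain ⟨a, ha, h⟩ := ih
    have hg0 := hP4 Γ W 1 g
    have hg1 : W.hit 1 g ≠ ⊤ := ((hP1 Γ W).2.1 1 g).trans_lt ENNReal.one_lt_top |>.ne
    refine ⟨min a (W.hit 1 g).toReal, lt_min ha (ENNReal.toReal_pos hg0 hg1), fun γ hγ => ?_⟩
    rcases Finset.mem_insert.1 hγ with rfl | hγ
    · exact (ENNReal.ofReal_le_ofReal (min_le_right _ _)).trans (ENNReal.ofReal_toReal hg1).le
    · exact (ENNReal.ofReal_le_ofReal (min_le_left _ _)).trans (h γ hγ)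

/-- counting a translated finite set. -/
theorem R08_count [DecidableEq Γ] (F : Finset Γ) (w : Γ) :
    ∑' p, (if w⁻¹ * p ∈ F then (1 : ℝ≥0∞) else 0) = (F.card : ℝ≥0∞) := by
  have h1 := (Equiv.mulLeft w⁻¹).tsum_eq (fun p : Γ => if p ∈ F then (1 : ℝ≥0∞) else 0)
  have h2 : ∑' p, (if p ∈ F then (1 : ℝ≥0∞) else 0) = (F.card : ℝ≥0∞) := by
    rw [tsum_eq_sum (s := F) (fun p hp => if_neg hp)]
    rw [Finset.sum_congr rfl fun p hp => if_pos hp]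
    simp
  rw [← h2, ← h1]
  rfl

/-- the elements near `w`. -/
theorem R08_near (h3 : B03_stmt) (h18 : B18_stmt) (A : DiscRep Γ) {C₁ η : ℝ} (hC₁ : 1 ≤ C₁)
    {u : ℂ} (hu : ‖u‖ = 1) {w p : Γ} (hw : ‖u - A.pt w‖ ≤ C₁ * A.kk w)
    (hp : A.Hu u p < A.kk w) (hη : η * A.kk w < A.kk p) :
    η / (C₁ + 3) ^ 2 ≤ A.kk (w⁻¹ * p) := by
  obtain ⟨a1, -, -, a4, -, -, -, a8, -, -, -, -⟩ := h3 Γ A
  have hw0 := (a1 w).1
  have hw1 := (a1 w).2
  have e1 := a8 w p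
  have e2 : ‖1 - conj (A.pt w) * A.pt p‖ ≤ (C₁ + 3) * A.kk w := by
    have g1 : 1 - conj (A.pt w) * A.pt p =
        ((A.kk w : ℝ) : ℂ) + conj (A.pt w) * ((A.pt w - u) + (u - A.pt p)) := by
      have g0 : conj (A.pt w) * A.pt w = ((‖A.pt w‖ ^ 2 : ℝ) : ℂ) := by
        rw [mul_comm, Complex.mul_conj, Complex.normSq_eq_norm_sq]
      unfold DiscRep.kk
      push_cast at g0 ⊢
      linear_combination -g0
    have g2 := ((h18 Γ A u hu).2.2.1 p (hp.le.trans hw1)).2.2.1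
    rw [g1]
    calc ‖((A.kk w : ℝ) : ℂ) + conj (A.pt w) * ((A.pt w - u) + (u - A.pt p))‖
        ≤ ‖((A.kk w : ℝ) : ℂ)‖ + ‖conj (A.pt w) * ((A.pt w - u) + (u - A.pt p))‖ := norm_add_le _ _
      _ ≤ A.kk w + 1 * (‖A.pt w - u‖ + ‖u - A.pt p‖) := by
          rw [norm_mul, Complex.norm_real, Real.norm_eq_abs, abs_of_pos hw0, RCLike.norm_conj]
          refine add_le_add le_rfl (mul_le_mul (a4 w).le (norm_add_le _ _) (norm_nonneg _) zero_le_one)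
      _ ≤ (C₁ + 3) * A.kk w := by
          rw [norm_sub_rev (A.pt w) u]
          linarith
  have e3 : ‖1 - conj (A.pt w) * A.pt p‖ ^ 2 ≤ ((C₁ + 3) * A.kk w) ^ 2 :=
    pow_le_pow_left₀ (norm_nonneg _) e2 2
  have hk := (a1 (w⁻¹ * p)).1
  rw [div_le_iff₀ (by positivity)]
  have e4 : A.kk w * A.kk p ≤ A.kk (w⁻¹ * p) * ((C₁ + 3) * A.kk w) ^ 2 := by
    rw [← e1]
    exact mul_le_mul_of_nonneg_left e3 hk.le
  have e5 : A.kk w * (η * A.kk w) ≤ A.kk w * A.kk p := mul_le_mul_of_nonneg_left hη.le hw0.le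
  have e6 : η * (A.kk w * A.kk w) ≤ (A.kk (w⁻¹ * p) * (C₁ + 3) ^ 2) * (A.kk w * A.kk w) := by
    nlinarith
  exact le_of_mul_le_mul_right e6 (by positivity)

end

theorem R08 (hR4 : R04_stmt) (hR5 : R05_stmt) (hR6 : R06_stmt) (h3 : B03_stmt) (h14 : B14_stmt)
    (h18 : B18_stmt) (hP1 : P01_stmt) (hP3 : P03_stmt) (hP4 : P04_stmt) : R08_stmt := by
  classical
  intro Γ _ A W ν hS hac C₁ hC₁
  obtain ⟨a1, a2, -, -, a5, -, -, -, -, -, -, -⟩ := h3 Γ A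
  have hpos : ∀ γ, 0 < A.kk γ := fun γ => (a1 γ).1
  obtain ⟨M5, hM5, hR5⟩ := hR5 Γ A W hS.disc
  obtain ⟨M6, hM6, hR6⟩ := hR6 Γ A W ν hS
  obtain ⟨M, hM⟩ : ∃ M : ℝ, M = max M5 M6 := ⟨_, rfl⟩
  have hMM5 : M5 ≤ M := by rw [hM]; exact le_max_left _ _
  have hMM6 : M6 ≤ M := by rw [hM]; exact le_max_right _ _
  obtain ⟨C, hC, hR5⟩ := hR5 M hMM5
  obtain ⟨CU, hCU1, hU⟩ := hR4 Γ A W ν hS hac
  have hCU : 0 < CU := by linarith
  obtain ⟨K, hK⟩ : ∃ K : ℝ, K = 1 + 4 * M := ⟨_, rfl⟩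
  have hK5 : 5 ≤ K := by rw [hK]; linarith
  have hK0 : 0 < K := by linarith
  obtain ⟨C₃, hC₃⟩ : ∃ C₃ : ℝ, C₃ = 64 * CU * K ^ 2 * C := ⟨_, rfl⟩
  have hC₃0 : 0 < C₃ := by rw [hC₃]; positivity
  refine ⟨1 / (4 * K), by positivity, ?_, 1024 * C₃ * C ^ 2 * CU ^ 2 * K ^ 2, by positivity,
    fun η hη0 hη1 => ?_⟩
  · rw [div_le_one (by positivity)]
    linarith
  have hFfin := (h14 Γ A).2.2 hS.disc (η / (C₁ + 3) ^ 2) (by positivity)
  obtain ⟨F, hF⟩ : ∃ F : Finset Γ, F = hFfin.toFinset := ⟨_, rfl⟩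
  have hFm : ∀ γ, γ ∈ F ↔ η / (C₁ + 3) ^ 2 ≤ A.kk γ := fun γ => by
    rw [hF, Set.Finite.mem_toFinset, mem_ofPred_eq]
  obtain ⟨a, ha, haF⟩ := R08_min hP1 hP4 W F
  have hn1 : 1 ≤ F.card := by
    rw [Nat.one_le_iff_ne_zero, Finset.card_ne_zero]
    refine ⟨1, (hFm 1).2 ?_⟩
    rw [a2, div_le_one (by positivity)]
    nlinarith
  obtain ⟨n, hn⟩ : ∃ n : ℝ, n = (F.card : ℝ) := ⟨_, rfl⟩
  have hn0 : 0 < n := by rw [hn]; exact_mod_cast hn1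
  refine ⟨32 * C₃ * CU * n ^ 2 / a ^ 2, by positivity, fun ζ w v r hζ hvw hw hv hr0 hr => ?_⟩
  obtain ⟨t₁, ht₁⟩ : ∃ t : ℝ, t = A.kk w := ⟨_, rfl⟩
  obtain ⟨t₂, ht₂⟩ : ∃ t : ℝ, t = A.kk v := ⟨_, rfl⟩
  obtain ⟨t₃, ht₃⟩ : ∃ t : ℝ, t = 2 * r := ⟨_, rfl⟩
  rw [← ht₁, ← ht₂] at hvw ⊢
  rw [← ht₂] at hr
  have t1p : 0 < t₁ := by rw [ht₁]; exact hpos w
  have t1o : t₁ ≤ 1 := by rw [ht₁]; exact (a1 w).2
  have t2p : 0 < t₂ := by rw [ht₂]; exact hpos v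
  have t3p : 0 < t₃ := by rw [ht₃]; linarith
  have t21 : 2 * K * t₂ ≤ t₁ := by
    have h0 : 1 / (4 * K) * t₁ = t₁ / (4 * K) := by ring
    rw [h0, le_div_iff₀ (by positivity)] at hvw
    nlinarith
  have t32 : 2 * K * t₃ ≤ t₂ := by
    have h0 : 1 / (4 * K) * t₂ = t₂ / (4 * K) := by ring
    rw [h0, le_div_iff₀ (by positivity)] at hr
    rw [ht₃]
    linarith
  have t2o : t₂ ≤ 1 := by nlinarith
  have t3o : t₃ ≤ 1 := by nlinarith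
  have t2le1 : t₂ ≤ t₁ := by nlinarith
  have t3le2 : t₃ ≤ t₂ := by nlinarith
  obtain ⟨-, b1, c1, d1⟩ := hR5 ζ t₁ hζ t1p t1o
  obtain ⟨-, b2, c2, d2⟩ := hR5 ζ t₂ hζ t2p t2o
  obtain ⟨-, -, c3, d3⟩ := hR5 ζ t₃ hζ t3p t3o
  rw [← hK] at c1 c2 c3
  obtain ⟨L₁, hL₁⟩ : ∃ L : Set Γ, L = lay A ζ M t₁ := ⟨_, rfl⟩
  obtain ⟨L₂, hL₂⟩ : ∃ L : Set Γ, L = lay A ζ M t₂ := ⟨_, rfl⟩
  obtain ⟨L₃, hL₃⟩ : ∃ L : Set Γ, L = lay A ζ M t₃ := ⟨_, rfl⟩
  have l1 : ∀ p ∈ L₁, A.Hu ζ p < t₁ := fun p hp => by rw [hL₁] at hp; exact hp.1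
  have l2 : ∀ p ∈ L₂, A.Hu ζ p < t₂ := fun p hp => by rw [hL₂] at hp; exact hp.1
  have l3 : ∀ p ∈ L₃, A.Hu ζ p < t₃ := fun p hp => by rw [hL₃] at hp; exact hp.1
  rw [← hL₁] at b1 c1 d1
  rw [← hL₂] at b2 c2 d2
  rw [← hL₃] at c3 d3
  -- Step 1
  have s1 : ν (closedBall ζ r) ≤ ∑' p, L₃.indicator (fun p => W.hit 1 p) p := by
    have h0 := hR6 M hMM6 ζ r hζ hr0 (by rw [ht₃] at t32; nlinarith)
    rw [← ht₃, ← hL₃] at h0
    exact h0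
  -- Step 3
  have s3 : ∀ p₂ ∈ L₂, ∑' p₃, L₃.indicator (fun p₃ => W.hit p₂ p₃) p₃ ≤
      ENNReal.ofReal (C₃ * t₃ / t₂ ^ 2) * A.ke p₂ := by
    intro p₂ hp₂
    have g1 : ∀ p₃ ∈ L₃, W.hit p₂ p₃ ≤ ENNReal.ofReal (16 * CU * K ^ 2 / t₂ ^ 2 * A.kk p₂) * A.ke p₃ := by
      intro p₃ hp₃
      have g2 := R08_ker hP1 h18 A W (K := K) hpos hCU hU hζ t2p t2o (x := p₂) (y := p₃) (l2 p₂ hp₂)
        (c2 p₂ hp₂).1 (by
          have := (c2 p₂ hp₂).1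
          have := l3 p₃ hp₃
          have h5 : 2 * A.Hu ζ p₃ * K ≤ A.Hu ζ p₂ * K := by nlinarith
          have h6 := le_of_mul_le_mul_right h5 hK0
          linarith)
      refine g2.trans (le_of_eq ?_)
      have := hpos p₂
      unfold DiscRep.ke
      rw [← ENNReal.ofReal_mul (by positivity)]
      congr 1
      ring
    calc ∑' p₃, L₃.indicator (fun p₃ => W.hit p₂ p₃) p₃
        ≤ ∑' p₃, ENNReal.ofReal (16 * CU * K ^ 2 / t₂ ^ 2 * A.kk p₂) *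
            (L₃ ∩ {γ | A.kk γ ≤ 4 * t₃}).indicator A.ke p₃ := by
          refine ENNReal.tsum_le_tsum fun p₃ => ?_
          by_cases hp₃ : p₃ ∈ L₃
          · rw [indicator_of_mem hp₃, indicator_of_mem
              (show p₃ ∈ L₃ ∩ {γ | A.kk γ ≤ 4 * t₃} from ⟨hp₃, (c3 p₃ hp₃).2⟩)]
            exact g1 p₃ hp₃
          · rw [indicator_of_notMem hp₃]
            exact zero_le
      _ = ENNReal.ofReal (16 * CU * K ^ 2 / t₂ ^ 2 * A.kk p₂) *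
            ∑' p₃, (L₃ ∩ {γ | A.kk γ ≤ 4 * t₃}).indicator A.ke p₃ := ENNReal.tsum_mul_left
      _ ≤ ENNReal.ofReal (16 * CU * K ^ 2 / t₂ ^ 2 * A.kk p₂) * ENNReal.ofReal (C * 4 * t₃) :=
          mul_le_mul_right (d3 4 (by norm_num)) _
      _ = ENNReal.ofReal (C₃ * t₃ / t₂ ^ 2) * A.ke p₂ := by
          have := hpos p₂
          unfold DiscRep.ke
          rw [← ENNReal.ofReal_mul (by positivity), ← ENNReal.ofReal_mul (by positivity), hC₃]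
          congr 1
          ring
  -- Step 2
  have s2 : ∀ p₃ ∈ L₃, W.hit 1 p₃ ≤ ∑' p₁, ∑' p₂, L₁.indicator (fun p₁ => W.hit 1 p₁) p₁ *
      (L₂.indicator (fun p₂ => W.hit p₁ p₂) p₂ * W.hit p₂ p₃) := by
    intro p₃ hp₃
    have g1 : W.hit 1 p₃ ≤ ∑' p, L₁.indicator (fun p => W.hit 1 p * W.hit p p₃) p := by
      refine b1 1 p₃ ?_ ?_
      · rw [(h18 Γ A ζ hζ).2.2.2]
        exact t1o
      · have := l3 p₃ hp₃
        linarith
    refine g1.trans (ENNReal.tsum_le_tsum fun p₁ => ?_)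
    by_cases hp₁ : p₁ ∈ L₁
    · rw [indicator_of_mem hp₁, indicator_of_mem hp₁, ENNReal.tsum_mul_left]
      refine mul_le_mul_right ?_ _
      have g2 := b2 p₁ p₃ (by
        have := (c1 p₁ hp₁).1
        nlinarith) (by
        have := l3 p₃ hp₃
        linarith)
      refine g2.trans (le_of_eq (tsum_congr fun p₂ => ?_))
      by_cases hp₂ : p₂ ∈ L₂
      · rw [indicator_of_mem hp₂, indicator_of_mem hp₂]
      · rw [indicator_of_notMem hp₂, indicator_of_notMem hp₂, zero_mul]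
    · rw [indicator_of_notMem hp₁]
      exact zero_le
  -- Step 4
  have s4 : ν (closedBall ζ r) ≤ ENNReal.ofReal (C₃ * t₃ / t₂ ^ 2) *
      ∑' p₁, ∑' p₂, L₁.indicator (fun p₁ => W.hit 1 p₁) p₁ *
      (L₂.indicator (fun p₂ => W.hit p₁ p₂) p₂ * A.ke p₂) := by
    calc ν (closedBall ζ r) ≤ ∑' p₃, L₃.indicator (fun p => W.hit 1 p) p₃ := s1
      _ ≤ ∑' p₃, ∑' p₁, ∑' p₂, L₁.indicator (fun p₁ => W.hit 1 p₁) p₁ *
          (L₂.indicator (fun p₂ => W.hit p₁ p₂) p₂ * L₃.indicator (fun p₃ => W.hit p₂ p₃) p₃) := by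
          refine ENNReal.tsum_le_tsum fun p₃ => ?_
          by_cases hp₃ : p₃ ∈ L₃
          · rw [indicator_of_mem hp₃]
            refine (s2 p₃ hp₃).trans (le_of_eq ?_)
            refine tsum_congr fun p₁ => tsum_congr fun p₂ => ?_
            rw [indicator_of_mem hp₃]
          · rw [indicator_of_notMem hp₃]
            exact zero_le
      _ = ∑' p₁, ∑' p₂, L₁.indicator (fun p₁ => W.hit 1 p₁) p₁ *
          (L₂.indicator (fun p₂ => W.hit p₁ p₂) p₂ *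
            ∑' p₃, L₃.indicator (fun p₃ => W.hit p₂ p₃) p₃) := by
          rw [ENNReal.tsum_comm]
          refine tsum_congr fun p₁ => ?_
          rw [ENNReal.tsum_comm]
          refine tsum_congr fun p₂ => ?_
          rw [ENNReal.tsum_mul_left, ENNReal.tsum_mul_left]
      _ ≤ ∑' p₁, ∑' p₂, ENNReal.ofReal (C₃ * t₃ / t₂ ^ 2) *
          (L₁.indicator (fun p₁ => W.hit 1 p₁) p₁ *
            (L₂.indicator (fun p₂ => W.hit p₁ p₂) p₂ * A.ke p₂)) := by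
          refine ENNReal.tsum_le_tsum fun p₁ => ENNReal.tsum_le_tsum fun p₂ => ?_
          by_cases hp₂ : p₂ ∈ L₂
          · rw [indicator_of_mem hp₂]
            calc _ ≤ L₁.indicator (fun p₁ => W.hit 1 p₁) p₁ *
                  (W.hit p₁ p₂ * (ENNReal.ofReal (C₃ * t₃ / t₂ ^ 2) * A.ke p₂)) :=
                  mul_le_mul_right (mul_le_mul_right (s3 p₂ hp₂) _) _
              _ = _ := by ring
          · rw [indicator_of_notMem hp₂, zero_mul, mul_zero]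
            exact zero_le
      _ = _ := by
          rw [← ENNReal.tsum_mul_left]
          refine tsum_congr fun p₁ => ?_
          rw [ENNReal.tsum_mul_left]
  -- Steps 5 and 6: the pointwise bound
  obtain ⟨DX, hDX⟩ : ∃ D : ℝ≥0∞, D = ENNReal.ofReal (16 * CU ^ 2 * K ^ 2 / t₁ ^ 2) := ⟨_, rfl⟩
  obtain ⟨Y, hY⟩ : ∃ Y : ℝ≥0∞, Y = ENNReal.ofReal (16 * CU * t₁ * t₂ / a ^ 2) * W.hit w v := ⟨_, rfl⟩
  have hX : ∀ p₁ ∈ L₁, ∀ p₂ ∈ L₂, W.hit 1 p₁ * (W.hit p₁ p₂ * A.ke p₂) ≤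
      DX * ((A.ke p₁ * A.ke p₁) * (A.ke p₂ * A.ke p₂)) := by
    intro p₁ hp₁ p₂ hp₂
    have g1 := hU p₁
    have g2 := R08_ker hP1 h18 A W (K := K) hpos hCU hU hζ t1p t1o (x := p₁) (y := p₂) (l1 p₁ hp₁)
        (c1 p₁ hp₁).1 (by
          have := (c1 p₁ hp₁).1
          have := l2 p₂ hp₂
          have h5 : 2 * A.Hu ζ p₂ * K ≤ A.Hu ζ p₁ * K := by nlinarith
          have h6 := le_of_mul_le_mul_right h5 hK0
          linarith)
    have q1 := hpos p₁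
    have q2 := hpos p₂
    calc W.hit 1 p₁ * (W.hit p₁ p₂ * A.ke p₂) ≤ ENNReal.ofReal (CU * A.kk p₁) *
          (ENNReal.ofReal (16 * CU * K ^ 2 / t₁ ^ 2 * (A.kk p₁ * A.kk p₂)) * A.ke p₂) :=
          mul_le_mul' g1 (mul_le_mul_left g2 _)
      _ = _ := by
          unfold DiscRep.ke
          rw [hDX, ← ENNReal.ofReal_mul (by positivity), ← ENNReal.ofReal_mul (by positivity),
            ← ENNReal.ofReal_mul (by positivity), ← ENNReal.ofReal_mul (by positivity),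
            ← ENNReal.ofReal_mul (by positivity), ← ENNReal.ofReal_mul (by positivity)]
          congr 1
          ring
  have hYb : ∀ p₁ ∈ L₁, ∀ p₂ ∈ L₂, w⁻¹ * p₁ ∈ F → v⁻¹ * p₂ ∈ F →
      W.hit 1 p₁ * (W.hit p₁ p₂ * A.ke p₂) ≤ Y := by
    intro p₁ hp₁ p₂ hp₂ hF1 hF2
    have q1 := hpos p₁
    have q2 := hpos p₂
    have g1 : W.hit 1 p₁ ≤ ENNReal.ofReal (4 * CU * t₁) := by
      refine (hU p₁).trans (ENNReal.ofReal_le_ofReal ?_)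
      have := (c1 p₁ hp₁).2
      nlinarith
    have g2 : A.ke p₂ ≤ ENNReal.ofReal (4 * t₂) := ENNReal.ofReal_le_ofReal (c2 p₂ hp₂).2
    have g3 : ENNReal.ofReal a ≤ W.hit w p₁ := by
      rw [R08_hit hP1]
      exact haF _ hF1
    have g4 : ENNReal.ofReal a ≤ W.hit p₂ v := by
      rw [R08_hit hP1]
      refine haF _ ((hFm _).2 ?_)
      have e1 : p₂⁻¹ * v = (v⁻¹ * p₂)⁻¹ := by group
      rw [e1, a5]
      exact (hFm _).1 hF2
    have g5 : ENNReal.ofReal (a ^ 2) * W.hit p₁ p₂ ≤ W.hit w v := by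
      calc ENNReal.ofReal (a ^ 2) * W.hit p₁ p₂ =
            (ENNReal.ofReal a * W.hit p₁ p₂) * ENNReal.ofReal a := by
            rw [sq, ENNReal.ofReal_mul ha.le]; ring
        _ ≤ (W.hit w p₁ * W.hit p₁ p₂) * W.hit p₂ v := mul_le_mul' (mul_le_mul_left g3 _) g4
        _ ≤ W.hit w p₂ * W.hit p₂ v := mul_le_mul_left (hP3 Γ W w p₁ p₂) _
        _ ≤ W.hit w v := hP3 Γ W w p₂ v
    have g6 : W.hit p₁ p₂ ≤ ENNReal.ofReal (1 / a ^ 2) * W.hit w v := by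
      calc W.hit p₁ p₂ = ENNReal.ofReal (1 / a ^ 2) * (ENNReal.ofReal (a ^ 2) * W.hit p₁ p₂) := by
            rw [← mul_assoc, ← ENNReal.ofReal_mul (by positivity)]
            have : 1 / a ^ 2 * a ^ 2 = 1 := by field_simp
            rw [this, ENNReal.ofReal_one, one_mul]
        _ ≤ _ := mul_le_mul_right g5 _
    calc W.hit 1 p₁ * (W.hit p₁ p₂ * A.ke p₂) ≤ ENNReal.ofReal (4 * CU * t₁) *
          ((ENNReal.ofReal (1 / a ^ 2) * W.hit w v) * ENNReal.ofReal (4 * t₂)) :=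
          mul_le_mul' g1 (mul_le_mul' g6 g2)
      _ = (ENNReal.ofReal (4 * CU * t₁) * ENNReal.ofReal (1 / a ^ 2) * ENNReal.ofReal (4 * t₂)) *
          W.hit w v := by ring
      _ = Y := by
          rw [hY, ← ENNReal.ofReal_mul (by positivity), ← ENNReal.ofReal_mul (by positivity)]
          congr 2
          ring
  obtain ⟨x₁, hx₁⟩ : ∃ f : Γ → ℝ≥0∞, f = (L₁ ∩ {γ | A.kk γ ≤ η * t₁}).indicator
    (fun γ => A.ke γ * A.ke γ) := ⟨_, rfl⟩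
  obtain ⟨x₄, hx₄⟩ : ∃ f : Γ → ℝ≥0∞, f = (L₁ ∩ {γ | A.kk γ ≤ 4 * t₁}).indicator
    (fun γ => A.ke γ * A.ke γ) := ⟨_, rfl⟩
  obtain ⟨y₁, hy₁⟩ : ∃ f : Γ → ℝ≥0∞, f = (L₂ ∩ {γ | A.kk γ ≤ η * t₂}).indicator
    (fun γ => A.ke γ * A.ke γ) := ⟨_, rfl⟩
  obtain ⟨y₄, hy₄⟩ : ∃ f : Γ → ℝ≥0∞, f = (L₂ ∩ {γ | A.kk γ ≤ 4 * t₂}).indicator
    (fun γ => A.ke γ * A.ke γ) := ⟨_, rfl⟩
  have hpt : ∀ p₁ p₂, L₁.indicator (fun p₁ => W.hit 1 p₁) p₁ *
      (L₂.indicator (fun p₂ => W.hit p₁ p₂) p₂ * A.ke p₂) ≤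
      DX * (x₁ p₁ * y₄ p₂) + DX * (x₄ p₁ * y₁ p₂) +
        Y * ((if w⁻¹ * p₁ ∈ F then 1 else 0) * (if v⁻¹ * p₂ ∈ F then 1 else 0)) := by
    intro p₁ p₂
    by_cases hp₁ : p₁ ∈ L₁
    swap
    · rw [indicator_of_notMem hp₁, zero_mul]
      exact zero_le
    by_cases hp₂ : p₂ ∈ L₂
    swap
    · rw [indicator_of_notMem hp₂, zero_mul, mul_zero]
      exact zero_le
    rw [indicator_of_mem hp₁, indicator_of_mem hp₂]
    have k4 : x₄ p₁ = A.ke p₁ * A.ke p₁ := by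
      rw [hx₄]
      exact indicator_of_mem (show p₁ ∈ L₁ ∩ {γ | A.kk γ ≤ 4 * t₁} from ⟨hp₁, (c1 p₁ hp₁).2⟩) _
    have m4 : y₄ p₂ = A.ke p₂ * A.ke p₂ := by
      rw [hy₄]
      exact indicator_of_mem (show p₂ ∈ L₂ ∩ {γ | A.kk γ ≤ 4 * t₂} from ⟨hp₂, (c2 p₂ hp₂).2⟩) _
    by_cases q1 : A.kk p₁ ≤ η * t₁
    · have k1 : x₁ p₁ = A.ke p₁ * A.ke p₁ := by
        rw [hx₁]
        exact indicator_of_mem (show p₁ ∈ L₁ ∩ {γ | A.kk γ ≤ η * t₁} from ⟨hp₁, q1⟩) _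
      rw [k1, m4]
      exact (hX p₁ hp₁ p₂ hp₂).trans ((le_add_right le_rfl).trans (le_add_right le_rfl))
    by_cases q2 : A.kk p₂ ≤ η * t₂
    · have m1 : y₁ p₂ = A.ke p₂ * A.ke p₂ := by
        rw [hy₁]
        exact indicator_of_mem (show p₂ ∈ L₂ ∩ {γ | A.kk γ ≤ η * t₂} from ⟨hp₂, q2⟩) _
      rw [k4, m1]
      exact (hX p₁ hp₁ p₂ hp₂).trans ((le_add_left le_rfl).trans (le_add_right le_rfl))
    · rw [not_le] at q1 q2
      have f1 : w⁻¹ * p₁ ∈ F := by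
        refine (hFm _).2 (R08_near h3 h18 A hC₁ hζ hw ?_ ?_)
        · rw [← ht₁]; exact l1 p₁ hp₁
        · rw [← ht₁]; exact q1
      have f2 : v⁻¹ * p₂ ∈ F := by
        refine (hFm _).2 (R08_near h3 h18 A hC₁ hζ hv ?_ ?_)
        · rw [← ht₂]; exact l2 p₂ hp₂
        · rw [← ht₂]; exact q2
      rw [if_pos f1, if_pos f2, mul_one, mul_one]
      exact (hYb p₁ hp₁ p₂ hp₂ f1 f2).trans (le_add_left le_rfl)
  -- the double sum
  have hprod : ∀ (D : ℝ≥0∞) (f g : Γ → ℝ≥0∞), ∑' p₁, ∑' p₂, D * (f p₁ * g p₂) =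
      D * ((∑' p, f p) * ∑' p, g p) := by
    intro D f g
    rw [← ENNReal.tsum_mul_right, ← ENNReal.tsum_mul_left]
    refine tsum_congr fun p₁ => ?_
    rw [ENNReal.tsum_mul_left, ENNReal.tsum_mul_left]
  have sx1 : ∑' p, x₁ p ≤ ENNReal.ofReal (C * (η * t₁) ^ 2) := by
    rw [hx₁, hL₁]
    exact R08_sq A t1p hη0 (by rw [← hL₁]; exact d1 η hη0)
  have sx4 : ∑' p, x₄ p ≤ ENNReal.ofReal (C * (4 * t₁) ^ 2) := by
    rw [hx₄, hL₁]
    exact R08_sq A t1p (by norm_num) (by rw [← hL₁]; exact d1 4 (by norm_num))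
  have sy1 : ∑' p, y₁ p ≤ ENNReal.ofReal (C * (η * t₂) ^ 2) := by
    rw [hy₁, hL₂]
    exact R08_sq A t2p hη0 (by rw [← hL₂]; exact d2 η hη0)
  have sy4 : ∑' p, y₄ p ≤ ENNReal.ofReal (C * (4 * t₂) ^ 2) := by
    rw [hy₄, hL₂]
    exact R08_sq A t2p (by norm_num) (by rw [← hL₂]; exact d2 4 (by norm_num))
  have s5 : ∑' p₁, ∑' p₂, L₁.indicator (fun p₁ => W.hit 1 p₁) p₁ *
      (L₂.indicator (fun p₂ => W.hit p₁ p₂) p₂ * A.ke p₂) ≤
      ENNReal.ofReal (512 * C ^ 2 * CU ^ 2 * K ^ 2 * η ^ 2 * t₂ ^ 2) +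
        ENNReal.ofReal (16 * CU * t₁ * t₂ / a ^ 2 * n ^ 2) * W.hit w v := by
    calc _ ≤ ∑' p₁, ∑' p₂, (DX * (x₁ p₁ * y₄ p₂) + DX * (x₄ p₁ * y₁ p₂) +
          Y * ((if w⁻¹ * p₁ ∈ F then 1 else 0) * (if v⁻¹ * p₂ ∈ F then 1 else 0))) :=
          ENNReal.tsum_le_tsum fun p₁ => ENNReal.tsum_le_tsum fun p₂ => hpt p₁ p₂
      _ = DX * ((∑' p, x₁ p) * ∑' p, y₄ p) + DX * ((∑' p, x₄ p) * ∑' p, y₁ p) +
          Y * ((F.card : ℝ≥0∞) * (F.card : ℝ≥0∞)) := by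
          simp only [ENNReal.tsum_add]
          rw [hprod, hprod, hprod Y (fun p₁ => if w⁻¹ * p₁ ∈ F then 1 else 0)
            (fun p₂ => if v⁻¹ * p₂ ∈ F then 1 else 0), R08_count, R08_count]
      _ ≤ DX * (ENNReal.ofReal (C * (η * t₁) ^ 2) * ENNReal.ofReal (C * (4 * t₂) ^ 2)) +
          DX * (ENNReal.ofReal (C * (4 * t₁) ^ 2) * ENNReal.ofReal (C * (η * t₂) ^ 2)) +
          Y * ((F.card : ℝ≥0∞) * (F.card : ℝ≥0∞)) :=
          add_le_add (add_le_add (mul_le_mul_right (mul_le_mul' sx1 sy4) _)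
            (mul_le_mul_right (mul_le_mul' sx4 sy1) _)) le_rfl
      _ = _ := by
          have hcard : (F.card : ℝ≥0∞) * (F.card : ℝ≥0∞) = ENNReal.ofReal (n ^ 2) := by
            rw [hn, sq, ENNReal.ofReal_mul (Nat.cast_nonneg _), ENNReal.ofReal_natCast]
          rw [hcard, hDX, hY, ← ENNReal.ofReal_mul (by positivity), ← ENNReal.ofReal_mul (by positivity),
            ← ENNReal.ofReal_mul (by positivity), ← ENNReal.ofReal_mul (by positivity),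
            ← ENNReal.ofReal_add (by positivity) (by positivity)]
          congr 1
          · congr 1
            field_simp
            ring
          · rw [mul_right_comm, ← ENNReal.ofReal_mul (by positivity)]
  refine s4.trans ((mul_le_mul_right s5 _).trans ?_)
  rw [mul_add, add_mul, ← mul_assoc, ← ENNReal.ofReal_mul (by positivity),
    ← ENNReal.ofReal_mul (by positivity), ← ENNReal.ofReal_mul (by positivity),
    mul_right_comm (ENNReal.ofReal (32 * C₃ * CU * n ^ 2 / a ^ 2 * (t₁ / t₂))),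
    ← ENNReal.ofReal_mul (by positivity)]
  refine add_le_add (ENNReal.ofReal_le_ofReal ?_) (le_of_eq ?_)
  · have e1 : C₃ * t₃ / t₂ ^ 2 * (512 * C ^ 2 * CU ^ 2 * K ^ 2 * η ^ 2 * t₂ ^ 2) =
        1024 * C₃ * C ^ 2 * CU ^ 2 * K ^ 2 * r * η ^ 2 := by
      rw [ht₃]
      field_simp
      ring
    have e2 : 1024 * C₃ * C ^ 2 * CU ^ 2 * K ^ 2 * η * r =
        1024 * C₃ * C ^ 2 * CU ^ 2 * K ^ 2 * r * η := by ring
    rw [e1, e2]
    refine mul_le_mul_of_nonneg_left ?_ (by positivity)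
    nlinarith
  · congr 2
    rw [ht₃]
    field_simp
    ring

end Pool.Agent.SG
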