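import Pool.Agent.helper3.SG.SpecS

/-!
# Project sg, module S14: limits of representations along an ultrafilter
-/

set_option autoImplicit false

open MeasureTheory Set Metric Filter Topology
open scoped ENNReal NNReal ComplexConjugate

namespace Pool.Agent.SG

theorem S14_id (a b z : ℂ) : ‖conj b * z + conj a‖ ^ 2 - ‖a * z + b‖ ^ 2 =
    (‖a‖ ^ 2 - ‖b‖ ^ 2) * (1 - ‖z‖ ^ 2) := by
  simp only [← Complex.normSq_eq_norm_sq, Complex.normSq_apply, Complex.add_re, Complex.add_im,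
    Complex.mul_re, Complex.mul_im, Complex.conj_re, Complex.conj_im]
  ring

theorem S14_lt {a b : ℂ} (h : ‖a‖ ^ 2 - ‖b‖ ^ 2 = 1) : ‖b‖ < ‖a‖ := by
  nlinarith [norm_nonneg a, norm_nonneg b]

theorem S14_den {a b z : ℂ} (h : ‖a‖ ^ 2 - ‖b‖ ^ 2 = 1) (hz : ‖z‖ ≤ 1) :
    conj b * z + conj a ≠ 0 := by
  intro h0
  have h1 : conj a = -(conj b * z) := by linear_combination h0
  have h2 : ‖conj a‖ = ‖conj b * z‖ := by rw [h1, norm_neg]
  rw [norm_mul, RCLike.norm_conj, RCLike.norm_conj] at h2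
  have h3 := S14_lt h
  have h4 : ‖b‖ * ‖z‖ ≤ ‖b‖ * 1 := mul_le_mul_of_nonneg_left hz (norm_nonneg _)
  linarith

theorem S14_le {a b z : ℂ} (h : ‖a‖ ^ 2 - ‖b‖ ^ 2 = 1) (hz : ‖z‖ ≤ 1) : ‖mob a b z‖ ≤ 1 := by
  unfold mob
  have h1 := S14_id a b z
  have h2 : 0 ≤ 1 - ‖z‖ ^ 2 := by nlinarith [norm_nonneg z]
  have h3 : 0 < ‖conj b * z + conj a‖ := norm_pos_iff.2 (S14_den h hz)
  rw [norm_div, div_le_one h3]
  rw [h, one_mul] at h1
  nlinarith [norm_nonneg (a * z + b)]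

theorem S14_lim (U : Ultrafilter ℕ) (x : ℕ → ℂ) (K : ℝ) (h : ∀ᶠ k in (U : Filter ℕ), ‖x k‖ ≤ K) :
    ∃ z : ℂ, Tendsto x U (𝓝 z) := by
  obtain ⟨z, -, hz⟩ := (isCompact_closedBall (0 : ℂ) K).ultrafilter_le_nhds (U.map x) (by
    rw [Filter.le_principal_iff]
    change x ⁻¹' closedBall 0 K ∈ (U : Filter ℕ)
    filter_upwards [h] with k hk
    rwa [mem_preimage, mem_closedBall_zero_iff])
  exact ⟨z, hz⟩

theorem S14_mob {U : Filter ℕ} {ak bk zk : ℕ → ℂ} {a b z : ℂ} (ha : Tendsto ak U (𝓝 a))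
    (hb : Tendsto bk U (𝓝 b)) (hz : Tendsto zk U (𝓝 z)) (h : ‖a‖ ^ 2 - ‖b‖ ^ 2 = 1)
    (hz1 : ‖z‖ ≤ 1) : Tendsto (fun k => mob (ak k) (bk k) (zk k)) U (𝓝 (mob a b z)) := by
  unfold mob
  have hca : Tendsto (fun k => conj (ak k)) U (𝓝 (conj a)) := (Complex.continuous_conj.tendsto a).comp ha
  have hcb : Tendsto (fun k => conj (bk k)) U (𝓝 (conj b)) := (Complex.continuous_conj.tendsto b).comp hb
  exact ((ha.mul hz).add hb).div ((hcb.mul hz).add hca) (S14_den h hz1)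

theorem S14 : S14_stmt := by
  intro Γ _ U Ak K hK
  have ha : ∀ g, ∃ z : ℂ, Tendsto (fun k => (Ak k).a g) U (𝓝 z) := fun g => S14_lim U _ (K g) (hK g)
  have hb : ∀ g, ∃ z : ℂ, Tendsto (fun k => (Ak k).b g) U (𝓝 z) := fun g => S14_lim U _ (K g) (by
    filter_upwards [hK g] with k hk
    exact (S14_lt ((Ak k).norm_eq g)).le.trans hk)
  choose a ha using ha
  choose b hb using hb
  have hne : ∀ g, ‖a g‖ ^ 2 - ‖b g‖ ^ 2 = 1 := by
    intro g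
    have h1 : Tendsto (fun k => ‖(Ak k).a g‖ ^ 2 - ‖(Ak k).b g‖ ^ 2) U (𝓝 (‖a g‖ ^ 2 - ‖b g‖ ^ 2)) :=
      ((ha g).norm.pow 2).sub ((hb g).norm.pow 2)
    have h2 : Tendsto (fun k => ‖(Ak k).a g‖ ^ 2 - ‖(Ak k).b g‖ ^ 2) U (𝓝 1) := by
      simp only [(Ak _).norm_eq]
      exact tendsto_const_nhds
    exact tendsto_nhds_unique h1 h2
  refine ⟨⟨a, b, hne, fun γ δ z hz => ?_⟩, fun g => ⟨ha g, hb g⟩⟩
  have hzc : Tendsto (fun _ : ℕ => z) (U : Filter ℕ) (𝓝 z) := tendsto_const_nhds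
  have h1 := S14_mob (ha (γ * δ)) (hb (γ * δ)) hzc (hne _) hz
  have h2 := S14_mob (ha δ) (hb δ) hzc (hne _) hz
  have h3 := S14_mob (ha γ) (hb γ) h2 (hne _) (S14_le (hne _) hz)
  refine tendsto_nhds_unique h1 (h3.congr fun k => ?_)
  exact ((Ak k).map_mul γ δ z hz).symm

end Pool.Agent.SG
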