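import Pool.Agent.helper3.SG.SpecS
import Pool.Agent.helper98.SG.B01

/-!
# Project sg, module S01: coefficients of products and inverses
-/

set_option autoImplicit false

open MeasureTheory Set Metric Filter Topology
open scoped ENNReal NNReal ComplexConjugate

namespace Pool.Agent.SG

theorem S01_c {a b : ℂ} (h : ‖a‖ ^ 2 - ‖b‖ ^ 2 = 1) : a * conj a - b * conj b = 1 := by
  rw [Complex.mul_conj, Complex.mul_conj, Complex.normSq_eq_norm_sq, Complex.normSq_eq_norm_sq]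
  exact_mod_cast h

theorem S01_r {a b : ℂ} (h : a * conj a - b * conj b = 1) : ‖a‖ ^ 2 - ‖b‖ ^ 2 = 1 := by
  rw [Complex.mul_conj, Complex.mul_conj, Complex.normSq_eq_norm_sq, Complex.normSq_eq_norm_sq] at h
  exact_mod_cast h

theorem S01_ne {a b : ℂ} (h : ‖a‖ ^ 2 - ‖b‖ ^ 2 = 1) : a ≠ 0 := by
  rintro rfl
  rw [norm_zero] at h
  nlinarith [norm_nonneg b]

/-- The coefficients are determined up to a sign. -/
theorem S01_uniq {α β a b : ℂ} (h1 : ‖α‖ ^ 2 - ‖β‖ ^ 2 = 1) (h2 : ‖a‖ ^ 2 - ‖b‖ ^ 2 = 1)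
    (h : ∀ z : ℂ, ‖z‖ ≤ 1 → mob α β z = mob a b z) :
    ∃ ε : ℂ, (ε = 1 ∨ ε = -1) ∧ α = ε * a ∧ β = ε * b := by
  have hc1 := S01_c h1
  have hc2 := S01_c h2
  have hE : ∀ z : ℂ, ‖z‖ ≤ 1 → (α * z + β) * (conj b * z + conj a) = (a * z + b) * (conj β * z + conj α) := by
    intro z hz
    have e1 := h z hz
    unfold mob at e1
    rwa [div_eq_div_iff (B01_den α β z h1 hz) (B01_den a b z h2 hz)] at e1
  have e0 := hE 0 (by simp)
  have e1 := hE 1 (by simp)
  have e2 := hE (-1) (by simp)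
  have f0 : β * conj a = b * conj α := by linear_combination e0
  have f1 : α * conj a + β * conj b = a * conj α + b * conj β := by linear_combination (e1 - e2) / 2
  have ha : a ≠ 0 := S01_ne h2
  obtain ⟨κ, hκ⟩ : ∃ κ : ℂ, κ = α / a := ⟨_, rfl⟩
  have hα : α = κ * a := by rw [hκ]; field_simp
  have hβc : conj β = κ * conj b := by
    have g1 : conj β * a = conj b * α := by
      have := congrArg (starRingEnd ℂ) f0
      simpa only [map_mul, Complex.conj_conj] using this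
    rw [hα] at g1
    have g2 : (conj β - κ * conj b) * a = 0 := by linear_combination g1
    rcases mul_eq_zero.1 g2 with g | g
    · linear_combination g
    · exact absurd g ha
  have hβ : β = conj κ * b := by
    have := congrArg (starRingEnd ℂ) hβc
    simpa only [map_mul, Complex.conj_conj] using this
  have hκc : conj κ = κ := by
    rw [hα, hβ] at f1
    simp only [map_mul, Complex.conj_conj] at f1
    linear_combination (κ - conj κ) * hc2 - f1
  rw [hκc] at hβ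
  have hκ2 : κ * κ = 1 := by
    rw [hα, hβ] at hc1
    simp only [map_mul, hκc] at hc1
    linear_combination hc1 - κ * κ * hc2
  exact ⟨κ, mul_self_eq_one_iff.1 hκ2, hα, hβ⟩

/-- Composition. -/
theorem S01_comp {a b a' b' z : ℂ} (h : ‖a‖ ^ 2 - ‖b‖ ^ 2 = 1) (h' : ‖a'‖ ^ 2 - ‖b'‖ ^ 2 = 1)
    (hz : ‖z‖ ≤ 1) : mob a b (mob a' b' z) = mob (a * a' + b * conj b') (a * b' + b * conj a') z := by
  have d1 := B01_den a' b' z h' hz
  have d2 := B01_den a b (mob a' b' z) h (B01_le a' b' z h' hz)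
  unfold mob at d2 ⊢
  have d3 : conj (a * b' + b * conj a') * z + conj (a * a' + b * conj b') =
      (conj b * ((a' * z + b') / (conj b' * z + conj a')) + conj a) * (conj b' * z + conj a') := by
    simp only [map_add, map_mul, Complex.conj_conj]
    field_simp
    ring
  have d4 : (a * a' + b * conj b') * z + (a * b' + b * conj a') =
      (a * ((a' * z + b') / (conj b' * z + conj a')) + b) * (conj b' * z + conj a') := by
    field_simp
    ring
  rw [d3, d4, mul_div_mul_right _ _ d1]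

theorem S01_norm {a b a' b' : ℂ} (h : ‖a‖ ^ 2 - ‖b‖ ^ 2 = 1) (h' : ‖a'‖ ^ 2 - ‖b'‖ ^ 2 = 1) :
    ‖a * a' + b * conj b'‖ ^ 2 - ‖a * b' + b * conj a'‖ ^ 2 = 1 := by
  refine S01_r ?_
  have hc := S01_c h
  have hc' := S01_c h'
  simp only [map_add, map_mul, Complex.conj_conj]
  linear_combination hc * (a' * conj a' - b' * conj b') + hc'

theorem S01_sgn {ε : ℂ} (h : ε = 1 ∨ ε = -1) : conj ε = ε := by
  rcases h with rfl | rfl <;> simp

theorem S01_sgn2 {ε : ℂ} (h : ε = 1 ∨ ε = -1) : ε * ε = 1 := by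
  rcases h with rfl | rfl <;> simp

theorem S01_sgn3 {ε δ : ℂ} (h : ε = 1 ∨ ε = -1) (h' : δ = 1 ∨ δ = -1) : ε * δ = 1 ∨ ε * δ = -1 := by
  rcases h with rfl | rfl <;> rcases h' with rfl | rfl <;> simp

theorem S01 : S01_stmt := by
  intro Γ _ A
  have hprod : ∀ γ δ, ∃ ε : ℂ, (ε = 1 ∨ ε = -1) ∧
      A.a (γ * δ) = ε * (A.a γ * A.a δ + A.b γ * conj (A.b δ)) ∧
      A.b (γ * δ) = ε * (A.a γ * A.b δ + A.b γ * conj (A.a δ)) := by
    intro γ δ
    refine S01_uniq (A.norm_eq _) (S01_norm (A.norm_eq γ) (A.norm_eq δ)) fun z hz => ?_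
    rw [A.map_mul γ δ z hz]
    exact S01_comp (A.norm_eq γ) (A.norm_eq δ) hz
  have hone : ∃ ε : ℂ, (ε = 1 ∨ ε = -1) ∧ A.a 1 = ε ∧ A.b 1 = 0 := by
    obtain ⟨ε, h1, h2, h3⟩ := S01_uniq (α := A.a 1) (β := A.b 1) (a := 1) (b := 0) (A.norm_eq 1)
      (by simp) (fun z hz => by
        have h4 : mob 1 0 z = z := by unfold mob; simp
        rw [h4]
        exact (B01 Γ A).2.2.2.1 z hz)
    exact ⟨ε, h1, by rw [h2, mul_one], by rw [h3, mul_zero]⟩
  refine ⟨hprod, hone, fun γ => ?_⟩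
  obtain ⟨ε₀, s0, p0, q0⟩ := hone
  obtain ⟨ε₁, s1, p1, q1⟩ := hprod γ γ⁻¹
  rw [mul_inv_cancel] at p1 q1
  rw [p0] at p1
  rw [q0] at q1
  have t1 := S01_sgn2 s1
  obtain ⟨ε, hε⟩ : ∃ ε : ℂ, ε = ε₁ * ε₀ := ⟨_, rfl⟩
  have hs : ε = 1 ∨ ε = -1 := by rw [hε]; exact S01_sgn3 s1 s0
  have hc := S01_c (A.norm_eq γ)
  have ha : A.a γ ≠ 0 := S01_ne (A.norm_eq γ)
  have u1 : A.a γ * A.a γ⁻¹ + A.b γ * conj (A.b γ⁻¹) = ε := by
    rw [hε]
    linear_combination ε₁ * (-p1) - (A.a γ * A.a γ⁻¹ + A.b γ * conj (A.b γ⁻¹)) * t1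
  have u2 : A.a γ * A.b γ⁻¹ + A.b γ * conj (A.a γ⁻¹) = 0 := by
    linear_combination ε₁ * (-q1) - (A.a γ * A.b γ⁻¹ + A.b γ * conj (A.a γ⁻¹)) * t1
  have u3 : conj (A.a γ) * conj (A.b γ⁻¹) + conj (A.b γ) * A.a γ⁻¹ = 0 := by
    have := congrArg (starRingEnd ℂ) u2
    simpa only [map_mul, map_add, Complex.conj_conj, map_zero] using this
  have v1 : A.a γ⁻¹ = ε * conj (A.a γ) := by
    linear_combination conj (A.a γ) * u1 - A.b γ * u3 - A.a γ⁻¹ * hc
  refine ⟨ε, hs, v1, ?_⟩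
  have v2 : conj (A.a γ⁻¹) = ε * A.a γ := by
    rw [v1, map_mul, Complex.conj_conj, S01_sgn hs]
  rw [v2] at u2
  have v3 : A.a γ * (A.b γ⁻¹ + ε * A.b γ) = 0 := by linear_combination u2
  rcases mul_eq_zero.1 v3 with g | g
  · exact absurd g ha
  · linear_combination g

end Pool.Agent.SG
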